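import Pool.Agent.R410.NG.PPR

/-!
# The analytic generalized Nagao conjecture over function fields of products of pencils

Let `M` be a finitely generated field of characteristic zero and of transcendence degree `d` over `ℚ`,
which contains the number field `k`; let `f₀ ∈ M[X]` be a monic cubic polynomial and let
`f_1, ..., f_r ∈ M[X]` be monic polynomials of odd degree.  Let `K = M(w, x_1, ..., x_r, y_1, ..., y_r)`,
where `w, x_1, ..., x_r` are algebraically independent over `M` and `y_i² = f_i(x_i) + w`: this is the
function field of the product over the line, with the coordinate `w`, of the `r` pencils of hyperelliptic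
curves `y² = f_i(x) + w`, and it is finitely generated of transcendence degree `m = d + r + 1` over `ℚ`.
Let `X` be the elliptic curve `Y² = f₀(X) + w` over `K`.

The algebraic side: `X(K)` is free of finite rank `∑ (ω_i - 1)`, where `ω_i` is the number of the
irreducible factors of `f₀(z) - f_i(x)` in `M[x, z]`.

The analytic side: let `R` be any model of `K` over the integers of `k`, that is any integral domain which
is finitely generated as a ring, contains the integers of `k` and has the field of fractions `K`, and over
which the curve has an equation `Y² = g(X)`, and let `N` be any nonzero element of `R` (for example a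
multiple of the discriminant, so that the fibres over the points with `N ≠ 0` are smooth).  Then the series
of the fibre averages `𝔄_v`, over the points of `Spec R` above `v` with `N ≠ 0`, has the residue
`-rank X(K)` at `s = 1`.

`X(K)` has no torsion, and this holds with `M` replaced by `M k'` for the finite extensions `k'` of `k`;
thus the `K/k`-trace of `X` is zero, and `𝔄* = 𝔄`.
-/

set_option autoImplicit false

namespace Pool.Agent.Results.MP_3d3918_nt.PencilProducts

open Polynomial NumberField IsDedekindDomain
open Pool.Agent.Y707.PR (HasResidue)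

/-- `K = M(w, x_1, ..., x_r, y_1, ..., y_r)`, where `w, x_1, ..., x_r` are algebraically independent over
`M` and `y_i² = f_i(x_i) + w`. -/
structure IsFunctionField {M K : Type} [Field M] [Field K] [Algebra M K] {r : ℕ} (f : Fin r → M[X])
    (w : K) (x y : Fin r → K) : Prop where
  indep : AlgebraicIndependent M (fun o : Option (Fin r) => o.elim w x)
  curve : ∀ i, y i ^ 2 = aeval (x i) (f i) + w
  gen : IntermediateField.adjoin M (insert w (Set.range x ∪ Set.range y)) = ⊤

/-- The curve `Y² = f₀(X) + w` for a monic cubic polynomial `f₀`. -/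
noncomputable def E {M K : Type} [Field M] [Field K] [Algebra M K] (f₀ : M[X]) (w : K) :
    WeierstrassCurve K :=
  ⟨0, algebraMap M K (f₀.coeff 2), 0, algebraMap M K (f₀.coeff 1), algebraMap M K (f₀.coeff 0) + w⟩

/-- The number of the irreducible factors of `f₀(z) - f(x)` in `M[x, z] = M[x][z]`: each of them is
represented by exactly one polynomial which is monic in `z`. -/
noncomputable def omega {M : Type} [Field M] (f₀ f : M[X]) : ℕ :=
  Nat.card {Q : M[X][X] // Q.Monic ∧ Irreducible Q ∧ Q ∣ f₀.map C - C f}

/-- The trace of the Frobenius on `H¹` of the curve `Y² = g(X)` over the finite field `F`, for a monic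
polynomial `g` of odd degree without multiple roots: the number of the elements of `F` minus the number of
the affine points. -/
noncomputable def traceOne (F : Type) [Field F] (g : F[X]) : ℝ :=
  (Nat.card F : ℝ) - Nat.card {P : F × F // P.2 ^ 2 = g.eval P.1}

/-- The average `𝔄_v = q_v^{-m} ∑ a(fibre)` of the traces of the fibres of `Y² = g(X)` over the points of
`Spec R` above `v`, rational over the residue field of `v`, at which `N` does not vanish. -/
noncomputable def average {k R : Type} [Field k] [NumberField k] [CommRing R] [Algebra (𝓞 k) R]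
    (g : R[X]) (N : R) (m : ℕ) (v : HeightOneSpectrum (𝓞 k)) : ℝ :=
  ((Nat.card (𝓞 k ⧸ v.asIdeal) : ℝ) ^ m)⁻¹ *
    ∑ᶠ φ : {φ : R →+* 𝓞 k ⧸ v.asIdeal //
      φ.comp (algebraMap (𝓞 k) R) = Ideal.Quotient.mk v.asIdeal ∧ φ N ≠ 0},
        traceOne (𝓞 k ⧸ v.asIdeal) (g.map φ.1)

open Classical in
/-- **The analytic generalized Nagao conjecture for the elliptic curves `Y² = f₀(X) + w` over the
function fields of the products of arbitrary many pencils over an arbitrary finitely generated field of
characteristic zero, for every model.** -/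
theorem result {k : Type} [Field k] [NumberField k] {M : Type} [Field M] [CharZero M] [Algebra k M]
    (hM : ∃ S : Finset M, Subfield.closure (S : Set M) = ⊤) {d : ℕ} (hd : Algebra.trdeg ℚ M = d)
    {f₀ : M[X]} (hf₀ : f₀.Monic) (h3 : f₀.natDegree = 3) {r : ℕ} (f : Fin r → M[X])
    (hf : ∀ i, (f i).Monic ∧ Odd (f i).natDegree) :
    (∃ (K : Type) (_ : Field K) (_ : Algebra M K) (w : K) (x y : Fin r → K),
      IsFunctionField f w x y) ∧
    ∀ (K : Type) [Field K] [CharZero K] [Algebra M K] (w : K) (x y : Fin r → K),
      IsFunctionField f w x y →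
      Algebra.trdeg ℚ K = (d + r + 1 : ℕ) ∧ (E f₀ w).Δ ≠ 0 ∧
      -- the algebraic side: the group of the points
      Module.Free ℤ (E f₀ w).toAffine.Point ∧ Module.Finite ℤ (E f₀ w).toAffine.Point ∧
      Module.finrank ℤ (E f₀ w).toAffine.Point = ∑ i, (omega f₀ (f i) - 1) ∧
      -- the analytic side: the residue at `s = 1` of the series of the `-𝔄_v`, for every model
      ∀ (R : Type) [CommRing R] [IsDomain R] [Algebra.FiniteType ℤ R] [Algebra R K]
        [IsFractionRing R K] [Algebra (𝓞 k) R],
        (∀ z : 𝓞 k, algebraMap R K (algebraMap (𝓞 k) R z) = algebraMap M K (algebraMap k M z)) →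
        ∀ g : R[X], g.Monic → g.map (algebraMap R K) = f₀.map (algebraMap M K) + C w →
          ∀ N : R, N ≠ 0 → ∀ S : Finset (HeightOneSpectrum (𝓞 k)),
            HasResidue S (fun v => -average g N (d + r + 1) v) 1
              (Module.finrank ℤ (E f₀ w).toAffine.Point) := by
  refine ⟨?_, ?_⟩
  · obtain ⟨K, i1, i2, w, x, y, h1, h2, h3⟩ := Pool.Agent.R410.BA.exists_ff f
    exact ⟨K, i1, i2, w, x, y, h1, h2, h3⟩
  · intro K _ _ _ w x y hK
    have hE : E f₀ w = Pool.Agent.R410.BS.cub (f₀.map (algebraMap M K)) w := by
      unfold E Pool.Agent.R410.BS.cub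
      rw [coeff_map, coeff_map, coeff_map]
    have hdeg : ∀ i, 0 < (f i).natDegree := fun i => (hf i).2.pos
    have h03 : 0 < f₀.natDegree := by rw [h3]; norm_num
    obtain ⟨hx, hw⟩ := Pool.Agent.R410.BA.indep_split hK.indep
    have hwM : Transcendental M w := hK.indep.transcendental none
    choose iF hF using fun i => Pool.Agent.R410.BA.mf_spec
      (Pool.Agent.R410.BA.PP_monic (f i) hf₀ h03) (Pool.Agent.R410.BA.PP_sqf hf₀ h03 (hdeg i))
    have hom : ∀ i, omega f₀ (f i) =
        Fintype.card (Pool.Agent.R410.BA.MF (Pool.Agent.R410.BS.PP f₀ (f i))) := fun i => by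
      rw [← Nat.card_eq_fintype_card]
      rfl
    obtain ⟨r1, r2, r3⟩ := Pool.Agent.R410.BA.rank_main hx hw hf₀ h3 (fun i => (hf i).1) hdeg
      hK.curve hK.gen (J := fun i => Pool.Agent.R410.BA.MF (Pool.Agent.R410.BS.PP f₀ (f i)))
      (h := fun i Q => Q.1) (fun i j => j.2.2.1) (fun i j => j.2.1)
      (fun i => Subtype.val_injective) hF (E f₀ w) hE
    have hΔ : (E f₀ w).Δ ≠ 0 := by
      rw [hE]
      exact Pool.Agent.R410.BA.cub_ne f₀ hwM
    have htr := Pool.Agent.R410.BA.trdeg_K hd hK.indep hK.curve hK.gen
    have hpos : ∀ i, 0 < omega f₀ (f i) := by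
      intro i
      rw [hom]
      by_contra h0
      have h1 : IsEmpty (Pool.Agent.R410.BA.MF (Pool.Agent.R410.BS.PP f₀ (f i))) :=
        Fintype.card_eq_zero_iff.1 (by omega)
      have h2 := hF i
      rw [Finset.univ_eq_empty, Finset.prod_empty] at h2
      have h4 : (Pool.Agent.R410.BS.PP f₀ (f i)).natDegree = 3 := by
        unfold Pool.Agent.R410.BS.PP
        rw [natDegree_sub_C, hf₀.natDegree_map, h3]
      rw [← h2, natDegree_one] at h4
      norm_num at h4
    refine ⟨by rw [htr]; congr 1; omega, hΔ, r1, r2, ?_, ?_⟩
    · rw [r3]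
      exact Finset.sum_congr rfl fun i _ => by rw [hom]
    · intro R _ _ _ _ _ _ hk g hg hgK N hN S
      have hgd : g.natDegree = 3 := by
        have h5 : (g.map (algebraMap R K)).natDegree = g.natDegree := hg.natDegree_map _
        rw [← h5, hgK, natDegree_add_C, hf₀.natDegree_map, h3]
      have h6 := Pool.Agent.R410.NG.residue_any (k := k) hM hd hK.indep hf₀ h3 (fun i => (hf i).1)
        (fun i => (hf i).2) hK.curve hK.gen R hk (fun _ => g) ⟨hg, hgd⟩ hgK hN S
      have h7 : (fun v : HeightOneSpectrum (𝓞 k) => Pool.Agent.R410.NG.avg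
          Pool.Agent.R410.NG.wtc (fun _ => g) N (d + 1 + r) v) =
          fun v => -average g N (d + r + 1) v := by
        funext v
        unfold Pool.Agent.R410.NG.avg Pool.Agent.R410.NG.sR average
        rw [← mul_neg, ← finsum_neg_distrib, show d + 1 + r = d + r + 1 by omega]
        rfl
      rw [h7] at h6
      convert h6 using 1
      rw [r3]
      push_cast
      have h8 : ∀ i, (Nat.card (Pool.Agent.R410.BA.MF (Pool.Agent.R410.BS.PP f₀ (f i))) : ℝ) =
          ((Fintype.card (Pool.Agent.R410.BA.MF (Pool.Agent.R410.BS.PP f₀ (f i))) - 1 : ℕ) : ℝ) +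
            1 := by
        intro i
        have h9 := hpos i
        rw [hom] at h9
        rw [Nat.card_eq_fintype_card, Nat.cast_sub h9]
        push_cast
        ring
      rw [Finset.sum_congr rfl fun i _ => h8 i, Finset.sum_add_distrib, Finset.sum_const,
        Finset.card_univ, Fintype.card_fin, nsmul_eq_mul, mul_one]
      ring

end Pool.Agent.Results.MP_3d3918_nt.PencilProducts
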