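import Pool.Agent.R385.FG.Num

/-!
# The analytic Nagao conjecture for fibrations and a cosine series

`f : 𝒳 → 𝒴` is a fibration over a number field `K`, `B` the projective variety over `K` of the
`K(𝒴)/K`-trace, `F` a number field containing `K`, `R` a finite set of primes of `F`, and
`b v = -𝔄*_v = a_v(B) - 𝔄_v` for the primes `v` of `F` outside `R`, where `𝔄_v` is the average over the
fibres of the traces of the Frobenius on `H¹`; these numbers are bounded, by the theorem of Deligne
(`IsSystem`).  Then `logSeries R b s` is the Dirichlet series `-∑ 𝔄*_v (log q_v) q_v^{-s}`, `Re s > 1`,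
of the problem, whose residue at `s = 1` should be `rank P_X(F(𝒴)) / τB(F)`.

The theorem: the series `U(t) = ∑ b_v cos(t log q_v) / q_v` converges for almost all real `t`, and for all
real `r` and `t₀` the Dirichlet series has a continuation to a neighbourhood of `1 + it₀`, with at most a
simple pole there, with the residue `r`, if and only if `U(t) + r log |t - t₀|` is equal, for almost all
`t` near `t₀`, to a function holomorphic at `t₀`.
-/

set_option autoImplicit false

namespace Pool.Agent.Results.MP_3d3918_nt.ResidueCriterion

open NumberField IsDedekindDomain
open Pool.Agent.W353.FB (Fibration IsSystem nagaoValue)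
open Pool.Agent.R385.FG (Criterion criterion)

theorem result (K : Type) [Field K] [NumberField K] (f : Fibration K) (n g : ℕ)
    (B : Set (MvPolynomial (Fin n) (𝓞 K)))
    (F : Type) [Field F] [NumberField F] [Algebra K F] (R : Finset (HeightOneSpectrum (𝓞 F)))
    (b : HeightOneSpectrum (𝓞 F) → ℝ) (hb : IsSystem (nagaoValue f B g) R b) : Criterion R b :=
  criterion hb.2

end Pool.Agent.Results.MP_3d3918_nt.ResidueCriterion
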